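import Mathlib
import Pool.Agent.Hhelper45.Cegrell.Member

/-!
# Boundary values of functions in the Cegrell class `𝓔`

There are a bounded hyperconvex domain `Ω ⊆ ℂ²` and `u ∈ 𝓔(Ω)` such that `u ∉ 𝓝(ũ)`, where `ũ` is
the smallest maximal plurisubharmonic majorant of `u`.
-/

open MeasureTheory Filter Topology Set

namespace Pool.Agent.Results.MP_b38b19_an.NotBoundaryValues

open Pool.Agent.Cegrell

lemma isConnected_Om : IsConnected Om := by
  set S : Set (ℂ × ℂ) := {p | p.1.re ^ 2 + p.2.re ^ 2 < p.2.re} with hS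
  have hconv : Convex ℝ S := by
    intro p hp q hq a b ha hb hab
    simp only [hS, Set.mem_ofPred_eq] at hp hq ⊢
    simp only [Prod.fst_add, Prod.smul_fst, Prod.snd_add, Prod.smul_snd, Complex.add_re,
      Complex.real_smul, Complex.mul_re, Complex.ofReal_re, Complex.ofReal_im, zero_mul, sub_zero]
    have e : a = 1 - b := by linarith
    have key : ∀ x y : ℝ, (a * x + b * y) ^ 2 ≤ a * x ^ 2 + b * y ^ 2 := by
      intro x y
      have h : a * x ^ 2 + b * y ^ 2 - (a * x + b * y) ^ 2 = a * b * (x - y) ^ 2 := by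
        rw [e]; ring
      have := mul_nonneg (mul_nonneg ha hb) (sq_nonneg (x - y))
      linarith
    have h1 := key p.1.re q.1.re
    have h2 := key p.2.re q.2.re
    rcases ha.lt_or_eq with ha' | ha'
    · nlinarith [mul_lt_mul_of_pos_left hp ha', mul_le_mul_of_nonneg_left hq.le hb]
    · have hb' : 0 < b := by linarith
      nlinarith [mul_le_mul_of_nonneg_left hp.le ha, mul_lt_mul_of_pos_left hq hb']
  have hne : S.Nonempty := ⟨(0, (1 / 2 : ℝ)), by
    simp only [hS, Set.mem_ofPred_eq, Complex.zero_re, Complex.ofReal_re]; norm_num⟩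
  set E : ℂ × ℂ → Cn 2 := fun p => ![Complex.exp p.1, Complex.exp p.2] with hE
  have hEc : Continuous E := by
    rw [continuous_pi_iff]
    intro i
    fin_cases i
    · exact Complex.continuous_exp.comp continuous_fst
    · exact Complex.continuous_exp.comp continuous_snd
  have himg : E '' S = Om := by
    ext z
    constructor
    · rintro ⟨p, hp, rfl⟩
      refine ⟨⟨Complex.exp_ne_zero _, Complex.exp_ne_zero _⟩, ?_⟩
      have h1 : ls (E p) = p.1.re := by
        show Real.log ‖Complex.exp p.1‖ = p.1.re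
        rw [Complex.norm_exp, Real.log_exp]
      have h2 : lt (E p) = p.2.re := by
        show Real.log ‖Complex.exp p.2‖ = p.2.re
        rw [Complex.norm_exp, Real.log_exp]
      rw [h1, h2]
      exact hp
    · intro hz
      refine ⟨(Complex.log (z 0), Complex.log (z 1)), ?_, ?_⟩
      · simp only [hS, Set.mem_ofPred_eq, Complex.log_re]
        exact hz.2
      · ext i
        fin_cases i
        · exact Complex.exp_log hz.1.1
        · exact Complex.exp_log hz.1.2
  rw [← himg]
  exact (hconv.isConnected hne).image E hEc.continuousOn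

lemma hyperconvex_Om : IsBoundedHyperconvex Om where
  isOpen := isOpen_Om
  isConnected := isConnected_Om
  isBounded := isBounded_Om
  exhaustion := by
    refine ⟨fun z => -R z, (R_cont.mono Om_sub_Tor).neg, psh_negR, ?_, ?_⟩
    · intro z hz
      have := Om.R_pos hz
      linarith
    · intro c hc
      have : {z | z ∈ Om ∧ -R z ≤ c} = {z | z ∈ Om ∧ -c ≤ R z} := by
        ext z
        constructor
        · rintro ⟨h1, h2⟩
          exact ⟨h1, by linarith⟩
        · rintro ⟨h1, h2⟩
          exact ⟨h1, by linarith⟩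
      rw [this]
      exact isCompact_level (by linarith)

lemma exists_exhaustion : ∃ D, IsExhaustion Om D := by
  refine ⟨fun j => {z | z ∈ Om ∧ 1 / ((j : ℝ) + 1) < R z}, ?_, ?_, ?_, ?_⟩
  · intro j
    exact (R_cont.mono Om_sub_Tor).isOpen_inter_preimage isOpen_Om isOpen_Ioi
  · intro j
    have hc : IsCompact {z | z ∈ Om ∧ 1 / ((j : ℝ) + 1) ≤ R z} := isCompact_level (by positivity)
    apply hc.of_isClosed_subset isClosed_closure
    exact closure_minimal (fun z hz => ⟨hz.1, hz.2.le⟩) hc.isClosed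
  · intro j
    have hc : IsCompact {z | z ∈ Om ∧ 1 / ((j : ℝ) + 1) ≤ R z} := isCompact_level (by positivity)
    refine (closure_minimal (t := {z | z ∈ Om ∧ 1 / ((j : ℝ) + 1) ≤ R z})
      (fun z hz => ⟨hz.1, hz.2.le⟩) hc.isClosed).trans ?_
    rintro z ⟨hz, hR⟩
    refine ⟨hz, lt_of_lt_of_le ?_ hR⟩
    apply one_div_lt_one_div_of_lt (by positivity)
    push_cast
    linarith
  · ext z
    simp only [mem_iUnion]
    constructor
    · rintro ⟨j, hz, -⟩
      exact hz
    · intro hz
      obtain ⟨j, hj⟩ := exists_nat_one_div_lt (Om.R_pos hz)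
      exact ⟨j, hz, hj⟩

/-- **Disproof of the question.** There are a bounded hyperconvex domain `Ω ⊆ ℂ²` and `u ∈ 𝓔(Ω)`
with `u ∉ 𝓝(ũ)`: no `φ ∈ 𝓝(Ω)` satisfies `φ + ũ ≤ u`. Here `ũ = (lim_j u^j)^*` may be computed from
any exhaustion `D` of `Ω` by relatively compact open subsets. -/
theorem result : ∃ Ω : Set (Cn 2), IsBoundedHyperconvex Ω ∧ (∃ D, IsExhaustion Ω D) ∧
    ∃ u : Cn 2 → EReal, MemE Ω u ∧ ∀ D, IsExhaustion Ω D →
      ¬ ∃ φ, MemN Ω D φ ∧ ∀ z ∈ Ω, φ z + tilde Ω D u z ≤ u z := by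
  refine ⟨Om, hyperconvex_Om, exists_exhaustion, u0, u_memE, ?_⟩
  rintro D hD ⟨φ, hφ, hle⟩
  obtain ⟨z, hz⟩ := isConnected_Om.nonempty
  have h1 := no_phi hD hφ.1.psh hle z hz
  rw [hφ.2 z hz] at h1
  have h2 := Om.W_lt_one hz
  have h3 : (0 : ℝ) ≤ 1 / 4 * (W z - 1) := by exact_mod_cast h1
  linarith

end Pool.Agent.Results.MP_b38b19_an.NotBoundaryValues
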